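import Pool.Agent.W78.GS.Basic
import Pool.Agent.W822.GA.Momp

/-! Project GS (helper78), task GS-2: mean values for a completely multiplicative function. -/

set_option autoImplicit false

namespace Pool.Agent.W762.GS

open Finset Filter
open Pool.Agent.H376R2.MR (FK Fj)
open Pool.Agent.W78
open Pool.Agent.W78.GS
open Pool.Agent.W78.GA (Qd nm prim bg dt ip lat NN cellM mE ps DPG Ele pball ball mem_pball ps_mul)
open Pool.Agent.W822.GA (TT mem_TT gg FF SZ FF_nonneg ps_prod nm_prod prim_prod card_fiber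
  cellM_exp mem_cellM mE_nonneg mE_le bg_nonneg bg_le bg_ne card_ball_le)

variable {g : ℕ → ℤ} {t c : ℤ}

section
variable {Ap Bp M : ℕ → Prop} {E : ℕ} {ρ : ℕ → ℤ} {ϖ : ℕ → Qd t c}

open scoped Classical in
/-- the coefficient -/
noncomputable def FG (g : ℕ → ℤ) (M : ℕ → Prop) (ϖ : ℕ → Qd t c) (H r ℓ : ℕ) (z : Qd t c) : ℂ :=
  ∑ τ ∈ (TT M H r ℓ).filter (fun τ => gg ϖ τ = z), ∏ i, ((g (τ i) : ℂ) / (τ i : ℂ))

lemma norm_FG_le (hg : Pm g) (H r ℓ : ℕ) (z : Qd t c) :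
    ‖FG g M ϖ H r ℓ z‖ ≤ FF M ϖ H r ℓ z := by
  classical
  unfold FG FF
  refine (norm_sum_le _ _).trans (le_of_eq ?_)
  refine Finset.sum_congr (by congr) fun τ _ => ?_
  rw [norm_prod]
  refine Finset.prod_congr rfl fun i _ => ?_
  rw [norm_div, hg.norm_eq, Complex.norm_natCast]

lemma PE_pow (hD : t ^ 2 < 4 * c) (H r ℓ : ℕ) (k : ℤ) :
    (-∑ m ∈ cellM M H r, (g m : ℂ) * ps k (ϖ m) / (m : ℂ)) ^ ℓ =
      DPG (SZ M ϖ H r ℓ) (fun z => (-1) ^ ℓ * FG g M ϖ H r ℓ z) k := by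
  classical
  rw [neg_pow, Finset.sum_pow']
  have h1 : ∑ p ∈ Fintype.piFinset fun _ : Fin ℓ => cellM M H r,
      ∏ i, (g (p i) : ℂ) * ps k (ϖ (p i)) / ((p i : ℕ) : ℂ) =
      ∑ τ ∈ TT M H r ℓ, ps k (gg ϖ τ) * ∏ i, ((g (τ i) : ℂ) / (τ i : ℂ)) := by
    unfold TT
    refine Finset.sum_congr rfl fun τ _ => ?_
    unfold gg
    rw [ps_prod hD]
    rw [← Finset.prod_mul_distrib]
    refine Finset.prod_congr rfl fun i _ => ?_
    ring
  rw [h1]
  unfold DPG SZ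
  rw [← Finset.sum_fiberwise_of_maps_to (g := gg ϖ) (t := (TT M H r ℓ).image (gg ϖ))
    (fun p hp => Finset.mem_image_of_mem _ hp), Finset.mul_sum]
  refine Finset.sum_congr rfl fun z _ => ?_
  unfold FG
  rw [mul_assoc, Finset.sum_mul]
  congr 1
  refine Finset.sum_congr ?_ fun τ hτ => ?_
  · congr
  · rw [(Finset.mem_filter.1 hτ).2]
    ring

lemma norm_PE_le (H r : ℕ) (k : ℤ) :
    ‖A.PE g M ϖ H r k‖ ≤ ‖-∑ m ∈ cellM M H r, (g m : ℂ) * ps k (ϖ m) / (m : ℂ)‖ := by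
  unfold A.PE
  split_ifs
  · exact le_rfl
  · rw [norm_zero]
    exact norm_nonneg _

theorem momp_of (hg : Pm g) (hD : t ^ 2 < 4 * c) (hLS : GA.S_LS t c) : A.S_MOMP g t c := by
  classical
  intro Ap Bp M E ρ ϖ hE
  obtain ⟨C, hC, hls⟩ := hLS
  refine ⟨2 * C + 12, by linarith, ?_⟩
  intro H r ℓ K hH hK hKe
  have hHpos : (0 : ℝ) < H := by exact_mod_cast hH
  set A : ℝ := Real.exp ((r : ℝ) * ℓ / H) with hA
  set B : ℝ := Real.exp (((r : ℝ) + 1) * ℓ / H) with hB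
  have hA1 : (1 : ℝ) ≤ A := Real.one_le_exp (by positivity)
  have hAB : A ≤ B := by
    apply Real.exp_le_exp.2
    gcongr
    linarith
  have hA0 : 0 < A := by linarith
  have hB0 : 0 < B := by linarith
  have hAe : A = Real.exp ((r : ℝ) / H) ^ ℓ := by
    rw [hA, ← Real.exp_nat_mul]
    congr 1
    ring
  have hBe : B = Real.exp (((r : ℝ) + 1) / H) ^ ℓ := by
    rw [hB, ← Real.exp_nat_mul]
    congr 1
    ring
  -- tuples
  have hTnm : ∀ τ ∈ TT M H r ℓ, nm (gg ϖ τ) = ∏ i, τ i := by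
    intro τ hτ
    rw [mem_TT] at hτ
    unfold gg
    rw [nm_prod]
    exact Finset.prod_congr rfl fun i _ => (hE.elt _ (mem_cellM (hτ i)).1).1
  have hTlow : ∀ τ ∈ TT M H r ℓ, ∏ i, 1 / (τ i : ℝ) ≤ 1 / A := by
    intro τ hτ
    rw [mem_TT] at hτ
    have hpc : ∏ _i : Fin ℓ, (Real.exp ((r : ℝ) / H))⁻¹ = (Real.exp ((r : ℝ) / H))⁻¹ ^ ℓ := by
      rw [Finset.prod_const, Finset.card_univ, Fintype.card_fin]
    rw [hAe, one_div, ← inv_pow, ← hpc]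
    refine Finset.prod_le_prod (fun i _ => by positivity) fun i _ => ?_
    rw [← one_div]
    exact one_div_le_one_div_of_le (Real.exp_pos _) (cellM_exp hE (hτ i)).2.1
  have hs : ∀ z ∈ SZ M ϖ H r ℓ, prim z ∧ (nm z : ℝ) ≤ B := by
    intro z hz
    unfold SZ at hz
    rw [Finset.mem_image] at hz
    obtain ⟨τ, hτ, rfl⟩ := hz
    refine ⟨prim_prod hD hE _ τ fun i _ => (mem_cellM (mem_TT.1 hτ i)).1, ?_⟩
    rw [hTnm τ hτ, hBe]
    push_cast
    have hpc : ∏ _i : Fin ℓ, Real.exp (((r : ℝ) + 1) / H) = Real.exp (((r : ℝ) + 1) / H) ^ ℓ := by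
      rw [Finset.prod_const, Finset.card_univ, Fintype.card_fin]
    rw [← hpc]
    exact Finset.prod_le_prod (fun i _ => by positivity)
      fun i _ => (cellM_exp hE (mem_TT.1 hτ i)).2.2
  have hm := hls B K (SZ M ϖ H r ℓ) (fun z => (-1) ^ ℓ * FG g M ϖ H r ℓ z) (hA1.trans hAB)
    hK hs
  have hFle : ∀ z, FF M ϖ H r ℓ z ≤ (ℓ.factorial : ℝ) ^ 2 * (1 / A) := by
    intro z
    unfold FF
    calc ∑ τ ∈ (TT M H r ℓ).filter (fun τ => gg ϖ τ = z), ∏ i, 1 / (τ i : ℝ)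
        ≤ ∑ τ ∈ (TT M H r ℓ).filter (fun τ => gg ϖ τ = z), 1 / A :=
          Finset.sum_le_sum fun τ hτ => hTlow τ (Finset.mem_filter.1 hτ).1
      _ = ((TT M H r ℓ).filter (fun τ => gg ϖ τ = z)).card * (1 / A) := by
          rw [Finset.sum_const, nsmul_eq_mul]
      _ ≤ (ℓ.factorial : ℝ) ^ 2 * (1 / A) := by
          have h1 : ((TT M H r ℓ).filter (fun τ => gg ϖ τ = z)).card ≤ ℓ.factorial ^ 2 := by
            refine le_trans (Finset.card_le_card ?_) (card_fiber hE H r ℓ (nm z))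
            intro τ hτ
            rw [Finset.mem_filter] at hτ ⊢
            refine ⟨hτ.1, ?_⟩
            rw [← hTnm τ hτ.1, hτ.2]
          have h2 : (((TT M H r ℓ).filter (fun τ => gg ϖ τ = z)).card : ℝ) ≤
              (ℓ.factorial : ℝ) ^ 2 := by exact_mod_cast h1
          gcongr
  have hFsum : ∑ z ∈ SZ M ϖ H r ℓ, FF M ϖ H r ℓ z ≤ 4 ^ ℓ := by
    have h1 : ∑ z ∈ SZ M ϖ H r ℓ, FF M ϖ H r ℓ z = mE M H r ^ ℓ := by
      unfold mE
      rw [Finset.sum_pow']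
      unfold FF SZ
      rw [Finset.sum_fiberwise_of_maps_to (fun p hp => Finset.mem_image_of_mem _ hp)]
      rfl
    rw [h1]
    exact pow_le_pow_left₀ (mE_nonneg _ _ _) (mE_le hE hH r) _
  have hsum : ∑ z ∈ SZ M ϖ H r ℓ, ‖(-1) ^ ℓ * FG g M ϖ H r ℓ z‖ ^ 2 ≤
      (ℓ.factorial : ℝ) ^ 2 * (1 / A) * 4 ^ ℓ := by
    calc ∑ z ∈ SZ M ϖ H r ℓ, ‖(-1) ^ ℓ * FG g M ϖ H r ℓ z‖ ^ 2
        ≤ ∑ z ∈ SZ M ϖ H r ℓ, (ℓ.factorial : ℝ) ^ 2 * (1 / A) * FF M ϖ H r ℓ z := by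
          refine Finset.sum_le_sum fun z _ => ?_
          rw [norm_mul, norm_pow, norm_neg, norm_one, one_pow, one_mul]
          refine (pow_le_pow_left₀ (norm_nonneg _) (norm_FG_le hg H r ℓ z) 2).trans ?_
          rw [pow_two]
          exact mul_le_mul_of_nonneg_right (hFle z) (FF_nonneg _ _ _ _)
      _ = (ℓ.factorial : ℝ) ^ 2 * (1 / A) * ∑ z ∈ SZ M ϖ H r ℓ, FF M ϖ H r ℓ z := by
          rw [Finset.mul_sum]
      _ ≤ (ℓ.factorial : ℝ) ^ 2 * (1 / A) * 4 ^ ℓ := by gcongr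
  have hBA : B / A ≤ 3 ^ ℓ := by
    rw [hA, hB, ← Real.exp_sub]
    have h1 : ((r : ℝ) + 1) * ℓ / H - (r : ℝ) * ℓ / H = ℓ / H := by ring
    rw [h1]
    have h2 : (ℓ : ℝ) / H ≤ ℓ := by
      rw [div_le_iff₀ hHpos]
      have : (1 : ℝ) ≤ H := by exact_mod_cast hH
      nlinarith [(Nat.cast_nonneg ℓ : (0 : ℝ) ≤ ℓ)]
    calc Real.exp ((ℓ : ℝ) / H) ≤ Real.exp (ℓ : ℝ) := Real.exp_le_exp.2 h2
      _ = Real.exp 1 ^ ℓ := by rw [← Real.exp_nat_mul, mul_one]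
      _ ≤ 3 ^ ℓ := by
          have := Real.exp_one_lt_three
          gcongr
  have hfac : (1 : ℝ) ≤ ℓ.factorial := by exact_mod_cast Nat.succ_le_of_lt ℓ.factorial_pos
  calc ∑ k ∈ FK K, ‖Pool.Agent.W78.GS.A.PE g M ϖ H r k‖ ^ (2 * ℓ)
      ≤ ∑ k ∈ FK K, ‖DPG (SZ M ϖ H r ℓ) (fun z => (-1) ^ ℓ * FG g M ϖ H r ℓ z) k‖ ^ 2 := by
        apply Finset.sum_le_sum
        intro k _
        rw [← PE_pow hD, norm_pow, ← pow_mul, mul_comm ℓ 2]
        exact pow_le_pow_left₀ (norm_nonneg _) (norm_PE_le H r k) _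
    _ ≤ _ := hm
    _ ≤ C * (B + B) * ((ℓ.factorial : ℝ) ^ 2 * (1 / A) * 4 ^ ℓ) := by
        have hKB : (K : ℝ) ≤ B := hKe.trans hAB
        gcongr
    _ = 2 * C * (B / A) * 4 ^ ℓ * (ℓ.factorial : ℝ) ^ 2 := by
        field_simp
        ring
    _ ≤ 2 * C * 3 ^ ℓ * 4 ^ ℓ * (ℓ.factorial : ℝ) ^ 2 := by gcongr
    _ = 2 * C * 12 ^ ℓ * (ℓ.factorial : ℝ) ^ 2 := by
        rw [mul_assoc (2 * C), ← mul_pow]
        norm_num
    _ ≤ (2 * C + 12) * (2 * C + 12) ^ ℓ * (ℓ.factorial : ℝ) ^ 8 := by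
        have h8 : (ℓ.factorial : ℝ) ^ 2 ≤ (ℓ.factorial : ℝ) ^ 8 :=
          pow_le_pow_right₀ hfac (by norm_num)
        gcongr <;> linarith
    _ = (2 * C + 12) ^ (ℓ + 1) * (ℓ.factorial : ℝ) ^ 8 := by
        rw [pow_succ]
        ring

end

/-! ### the mean value of `GG` -/

lemma coef_norm (hg : Pm g) (Z : ℝ) (z : Qd t c) :
    ‖(g (nm z) : ℂ) * (bg Z z : ℂ)‖ ≤ 1 / nm z := by
  rw [norm_mul, Complex.norm_real, Real.norm_of_nonneg (bg_nonneg Z z), hg.norm_eq, one_mul]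
  exact bg_le Z z

open scoped Classical in
lemma GG_filter (Z : ℝ) (k : ℤ) :
    A.GG g t c Z k =
      DPG ((pball t c (Real.exp 1 * Z)).filter (fun z => bg Z z ≠ 0))
      (fun z => (g (nm z) : ℂ) * (bg Z z : ℂ)) k := by
  unfold A.GG DPG
  rw [Finset.sum_filter_of_ne]
  intro n _ hn h0
  apply hn
  simp only [h0]
  simp

theorem mom0_of (hg : Pm g) (hD : t ^ 2 < 4 * c) (hLS : GA.S_LS t c) (hLAT : GA.S_LAT t c) :
    A.S_MOM0 g t c := by
  classical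
  obtain ⟨C, hC, hls⟩ := hLS
  obtain ⟨C', hC', hcard⟩ := card_ball_le hLAT
  set e := Real.exp 1 with he
  have he0 : 0 < e := Real.exp_pos 1
  have he1 : 1 ≤ e := Real.one_le_exp zero_le_one
  refine ⟨C * C' * e ^ 4, by positivity, ?_⟩
  intro K Z hZ hK
  have hZ0 : 0 < Z := by linarith
  have heZ : 1 ≤ e * Z := by nlinarith
  set s := (pball t c (e * Z)).filter (fun z => bg Z z ≠ 0) with hs
  have hmem : ∀ z ∈ s, prim z ∧ Z / e ≤ (nm z : ℝ) ∧ (nm z : ℝ) ≤ e * Z := by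
    intro z hz
    rw [hs, Finset.mem_filter, mem_pball hD] at hz
    obtain ⟨h0, h1, h2⟩ := bg_ne hz.2
    have hpos : (0 : ℝ) < nm z := by exact_mod_cast h0
    refine ⟨hz.1.1, ?_, hz.1.2⟩
    rw [← Real.log_le_log_iff (by positivity) hpos, Real.log_div hZ0.ne' he0.ne', he,
      Real.log_exp]
    exact h1
  have hm := hls (e * Z) K s (fun z => (g (nm z) : ℂ) * (bg Z z : ℂ)) heZ hK
    fun z hz => ⟨(hmem z hz).1, (hmem z hz).2.2⟩
  have htcard : (s.card : ℝ) ≤ C' * (e * Z) := by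
    refine le_trans ?_ (hcard (e * Z) heZ)
    have : s.card ≤ (ball t c (e * Z)).card := by
      calc s.card ≤ (pball t c (e * Z)).card := Finset.card_filter_le _ _
        _ ≤ (ball t c (e * Z)).card := by
          unfold pball
          exact Finset.card_filter_le _ _
    exact_mod_cast this
  have hsum : ∑ z ∈ s, ‖(g (nm z) : ℂ) * (bg Z z : ℂ)‖ ^ 2 ≤ C' * (e * Z) * (e / Z) ^ 2 := by
    calc ∑ z ∈ s, ‖(g (nm z) : ℂ) * (bg Z z : ℂ)‖ ^ 2 ≤ ∑ _z ∈ s, (e / Z) ^ 2 := by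
          apply Finset.sum_le_sum
          intro z hz
          have hn1 := (hmem z hz).2.1
          have hze : 0 < Z / e := by positivity
          have hnpos : (0 : ℝ) < nm z := by linarith
          have hinv : 1 / (nm z : ℝ) ≤ e / Z := by
            rw [div_le_div_iff₀ hnpos hZ0, one_mul]
            rw [div_le_iff₀ he0] at hn1
            linarith
          calc ‖(g (nm z) : ℂ) * (bg Z z : ℂ)‖ ^ 2 ≤ (1 / (nm z : ℝ)) ^ 2 := by
                gcongr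
                exact coef_norm hg Z z
            _ ≤ (e / Z) ^ 2 := by gcongr
      _ = s.card * (e / Z) ^ 2 := by rw [Finset.sum_const, nsmul_eq_mul]
      _ ≤ C' * (e * Z) * (e / Z) ^ 2 := by gcongr
  calc ∑ k ∈ FK K, ‖A.GG g t c Z k‖ ^ 2
      = ∑ k ∈ FK K, ‖DPG s (fun z => (g (nm z) : ℂ) * (bg Z z : ℂ)) k‖ ^ 2 := by
        apply Finset.sum_congr rfl
        intro k _
        rw [GG_filter, hs]
    _ ≤ _ := hm
    _ ≤ C * (K + e * Z) * (C' * (e * Z) * (e / Z) ^ 2) := by gcongr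
    _ = C * C' * e ^ 3 * (e + K / Z) := by
        field_simp
        ring
    _ ≤ C * C' * e ^ 3 * (e + e * (K / Z)) := by
        gcongr
        have : (0 : ℝ) ≤ K / Z := by positivity
        nlinarith
    _ = C * C' * e ^ 4 * (1 + K / Z) := by ring

end Pool.Agent.W762.GS
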